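import Mathlib
import Pool.Agent.H610.HD.Stm3

/-!
# Hard disks: four squares in a square (`S_four` from `S_split`)
-/

set_option autoImplicit false

open MeasureTheory Set Filter

namespace Pool.Agent.H349.HD610

open Pool.Agent.K4H96.HS Pool.Agent.H610.HD

/-- The partition function of a general region. -/
noncomputable def Zg (d N : ℕ) (r : ℝ) (Λ : Set (Fin d → ℝ)) : ℝ :=
  ((Nat.factorial N : ℝ))⁻¹ * (volume (Conf N d r Λ)).toReal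

theorem Zg_nonneg (d N : ℕ) (r : ℝ) (Λ : Set (Fin d → ℝ)) : 0 ≤ Zg d N r Λ := by
  unfold Zg; positivity

theorem Zg_mono (d N : ℕ) (r : ℝ) {Λ Λ' : Set (Fin d → ℝ)} (h : Λ ⊆ Λ') (hc : IsCompact Λ') :
    Zg d N r Λ ≤ Zg d N r Λ' := by
  unfold Zg
  refine mul_le_mul_of_nonneg_left ?_ (by positivity)
  exact ENNReal.toReal_mono (conf_compact r Λ' hc).measure_lt_top.ne
    (measure_mono (conf_mono r h))

theorem Zg_split (h : S_split) (d N₁ N₂ : ℕ) (r : ℝ) (Λ₁ Λ₂ : Set (Fin d → ℝ)) (hr : 0 < r)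
    (h₁ : IsCompact Λ₁) (h₂ : IsCompact Λ₂)
    (hd : ∀ y ∈ Λ₁, ∀ z ∈ Λ₂, r ^ 2 ≤ ∑ k, (y k - z k) ^ 2) :
    Zg d N₁ r Λ₁ * Zg d N₂ r Λ₂ ≤ Zg d (N₁ + N₂) r (Λ₁ ∪ Λ₂) := by
  have hs := h d N₁ N₂ r Λ₁ Λ₂ hr h₁ h₂ hd
  have hs' := ENNReal.toReal_mono
    (conf_compact (N := N₁ + N₂) r (Λ₁ ∪ Λ₂) (h₁.union h₂)).measure_lt_top.ne hs
  rw [ENNReal.toReal_mul, ENNReal.toReal_mul, ENNReal.toReal_natCast] at hs'
  unfold Zg
  set V₁ := (volume (Conf N₁ d r Λ₁)).toReal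
  set V₂ := (volume (Conf N₂ d r Λ₂)).toReal
  set V := (volume (Conf (N₁ + N₂) d r (Λ₁ ∪ Λ₂))).toReal
  have hf : (((N₁ + N₂).choose N₁ : ℕ) : ℝ) * (N₁.factorial : ℝ) * (N₂.factorial : ℝ) =
      ((N₁ + N₂).factorial : ℝ) := by
    have := Nat.choose_mul_factorial_mul_factorial (Nat.le_add_right N₁ N₂)
    rw [Nat.add_sub_cancel_left] at this
    exact_mod_cast this
  have hc : (0:ℝ) < (((N₁ + N₂).choose N₁ : ℕ) : ℝ) := by
    exact_mod_cast Nat.choose_pos (Nat.le_add_right N₁ N₂)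
  have hp₁ : (0:ℝ) < (N₁.factorial : ℝ) := by exact_mod_cast N₁.factorial_pos
  have hp₂ : (0:ℝ) < (N₂.factorial : ℝ) := by exact_mod_cast N₂.factorial_pos
  rw [← hf]
  calc ((N₁.factorial : ℝ))⁻¹ * V₁ * (((N₂.factorial : ℝ))⁻¹ * V₂)
      = (((((N₁ + N₂).choose N₁ : ℕ) : ℝ) * (N₁.factorial : ℝ) * (N₂.factorial : ℝ)))⁻¹ *
        ((((N₁ + N₂).choose N₁ : ℕ) : ℝ) * (V₁ * V₂)) := by
        field_simp
    _ ≤ _ := mul_le_mul_of_nonneg_left hs' (by positivity)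

/-- translation of a region -/
def sh {d : ℕ} (v : Fin d → ℝ) (Λ : Set (Fin d → ℝ)) : Set (Fin d → ℝ) :=
  (fun y => y + v) '' Λ

theorem sh_compact {d : ℕ} (v : Fin d → ℝ) {Λ : Set (Fin d → ℝ)} (h : IsCompact Λ) :
    IsCompact (sh v Λ) := h.image (by fun_prop)

theorem Zg_sh (d N : ℕ) (r : ℝ) (v : Fin d → ℝ) (Λ : Set (Fin d → ℝ)) :
    Zg d N r (sh v Λ) = Zg d N r Λ := by
  unfold Zg
  have h : (fun x : Fin N → Fin d → ℝ => x + fun _ => v) ⁻¹' Conf N d r (sh v Λ) =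
      Conf N d r Λ := by
    ext x
    simp only [Conf, sh, mem_preimage, mem_ofPred_eq, Pi.add_apply, add_sub_add_right_eq_sub]
    refine and_congr_left fun _ => forall_congr' fun i => ?_
    constructor
    · rintro ⟨y, hy, h⟩
      have : y = x i := add_right_cancel h
      exact this ▸ hy
    · intro hx
      exact ⟨x i, hx, rfl⟩
  rw [← h, measure_preimage_add_right]

theorem four (h : S_split) : S_four := by
  intro a L N₁ N₂ ha hL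
  have hr : (0:ℝ) < 2 * a := by positivity
  set B := Box 2 L with hB
  have hBc : IsCompact B := box_compact 2 L
  set e₁ : Fin 2 → ℝ := ![L + 2 * a, 0] with he₁
  set e₂ : Fin 2 → ℝ := ![0, L + 2 * a] with he₂
  set U : Set (Fin 2 → ℝ) := B ∪ sh e₁ B with hU
  have hUc : IsCompact U := hBc.union (sh_compact e₁ hBc)
  have hU0 : ∀ y ∈ U, (0 ≤ y 0 ∧ y 0 ≤ 2 * L + 2 * a) ∧ (0 ≤ y 1 ∧ y 1 ≤ L) := by
    rintro y (hy | ⟨z, hz, rfl⟩)
    · have h0 := hy 0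
      have h1 := hy 1
      exact ⟨⟨h0.1, by linarith [h0.2]⟩, h1.1, h1.2⟩
    · have h0 := hz 0
      have h1 := hz 1
      simp only [Pi.add_apply, he₁, Matrix.cons_val_zero, Matrix.cons_val_one]
      exact ⟨⟨by linarith [h0.1], by linarith [h0.2]⟩, by linarith [h1.1], by linarith [h1.2]⟩
  have s1 : Zg 2 N₁ (2 * a) B * Zg 2 N₂ (2 * a) B ≤ Zg 2 (N₁ + N₂) (2 * a) U := by
    have := Zg_split h 2 N₁ N₂ (2 * a) B (sh e₁ B) hr hBc (sh_compact e₁ hBc) (by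
      rintro y hy _ ⟨z, hz, rfl⟩
      have h0 := (hy 0).2
      have h1 := (hz 0).1
      rw [Fin.sum_univ_two]
      simp only [Pi.add_apply, he₁, Matrix.cons_val_zero, Matrix.cons_val_one]
      nlinarith [sq_nonneg (y 1 - (z 1 + 0))])
    rwa [Zg_sh] at this
  have s2 : Zg 2 (N₁ + N₂) (2 * a) U * Zg 2 (N₁ + N₂) (2 * a) U ≤
      Zg 2 ((N₁ + N₂) + (N₁ + N₂)) (2 * a) (U ∪ sh e₂ U) := by
    have := Zg_split h 2 (N₁ + N₂) (N₁ + N₂) (2 * a) U (sh e₂ U) hr hUc (sh_compact e₂ hUc) (by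
      rintro y hy _ ⟨z, hz, rfl⟩
      have h0 := (hU0 y hy).2.2
      have h1 := (hU0 z hz).2.1
      rw [Fin.sum_univ_two]
      simp only [Pi.add_apply, he₂, Matrix.cons_val_zero, Matrix.cons_val_one]
      nlinarith [sq_nonneg (y 0 - (z 0 + 0))])
    rwa [Zg_sh] at this
  have s3 : Zg 2 ((N₁ + N₂) + (N₁ + N₂)) (2 * a) (U ∪ sh e₂ U) ≤
      Zg 2 ((N₁ + N₂) + (N₁ + N₂)) (2 * a) (Box 2 (2 * L + 2 * a)) := by
    refine Zg_mono _ _ _ ?_ (box_compact _ _)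
    rintro y (hy | ⟨z, hz, rfl⟩)
    · obtain ⟨⟨p, q⟩, s, t⟩ := hU0 y hy
      intro k
      fin_cases k
      · exact ⟨p, q⟩
      · exact ⟨s, by simpa using (by linarith : y 1 ≤ 2 * L + 2 * a)⟩
    · obtain ⟨⟨p, q⟩, s, t⟩ := hU0 z hz
      intro k
      fin_cases k
      · simp only [Pi.add_apply, he₂, mem_Icc, Fin.zero_eta, Matrix.cons_val_zero]
        constructor <;> linarith
      · simp only [Pi.add_apply, he₂, mem_Icc, Fin.mk_one, Matrix.cons_val_one,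
          Matrix.cons_val_fin_one]
        constructor <;> linarith
  have hN : 2 * N₁ + 2 * N₂ = (N₁ + N₂) + (N₁ + N₂) := by ring
  rw [hN]
  change Zg 2 N₁ (2 * a) B ^ 2 * Zg 2 N₂ (2 * a) B ^ 2 ≤
    Zg 2 ((N₁ + N₂) + (N₁ + N₂)) (2 * a) (Box 2 (2 * L + 2 * a))
  calc Zg 2 N₁ (2 * a) B ^ 2 * Zg 2 N₂ (2 * a) B ^ 2
      = (Zg 2 N₁ (2 * a) B * Zg 2 N₂ (2 * a) B) * (Zg 2 N₁ (2 * a) B * Zg 2 N₂ (2 * a) B) := by
        ring
    _ ≤ Zg 2 (N₁ + N₂) (2 * a) U * Zg 2 (N₁ + N₂) (2 * a) U :=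
        mul_le_mul s1 s1 (mul_nonneg (Zg_nonneg _ _ _ _) (Zg_nonneg _ _ _ _))
          (Zg_nonneg _ _ _ _)
    _ ≤ _ := s2.trans s3

end Pool.Agent.H349.HD610
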